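import Mathlib
import Pool.Agent.H338R2.Smyth

/-!
# The first deviation of a complex polynomial from its conjugate reciprocal
-/

set_option autoImplicit false

open Polynomial
open Pool.Agent.H338R2

namespace Pool.Agent.X115.Dec

/-- the product of `X - a` -/
noncomputable def PP (R : Multiset ℂ) : ℂ[X] := (R.map (fun a => X - C a)).prod

/-- the product of `1 - conj a X` -/
noncomputable def QQ (R : Multiset ℂ) : ℂ[X] := (R.map (fun a => 1 - C (starRingEnd ℂ a) * X)).prod

/-- the product of `max 1 |a|` -/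
noncomputable def UU (R : Multiset ℂ) : ℝ := (R.map (fun a => max 1 ‖a‖)).prod

/-- the product of `min 1 |a|` -/
noncomputable def VV (R : Multiset ℂ) : ℝ := (R.map (fun a => min 1 ‖a‖)).prod

lemma UU_ge (R : Multiset ℂ) : 1 ≤ UU R := by
  unfold UU
  induction R using Multiset.induction_on with
  | empty => simp
  | cons a s ih =>
    rw [Multiset.map_cons, Multiset.prod_cons]
    exact one_le_mul_of_one_le_of_one_le (le_max_left _ _) ih

lemma VV_nonneg (R : Multiset ℂ) : 0 ≤ VV R := by
  unfold VV
  induction R using Multiset.induction_on with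
  | empty => simp
  | cons a s ih =>
    rw [Multiset.map_cons, Multiset.prod_cons]
    exact mul_nonneg (le_min zero_le_one (norm_nonneg _)) ih

lemma VV_le (R : Multiset ℂ) : VV R ≤ 1 := by
  unfold VV
  induction R using Multiset.induction_on with
  | empty => simp
  | cons a s ih =>
    rw [Multiset.map_cons, Multiset.prod_cons]
    exact mul_le_one₀ (min_le_left _ _) (VV_nonneg s) ih

lemma VV_pos (R : Multiset ℂ) (hR : ∀ a ∈ R, a ≠ 0) : 0 < VV R := by
  unfold VV
  induction R using Multiset.induction_on with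
  | empty => simp
  | cons a s ih =>
    rw [Multiset.map_cons, Multiset.prod_cons]
    exact mul_pos (lt_min one_pos (norm_pos_iff.2 (hR a (Multiset.mem_cons_self _ _))))
      (ih fun b hb => hR b (Multiset.mem_cons_of_mem hb))

lemma UU_add (R S : Multiset ℂ) : UU (R + S) = UU R * UU S := by
  unfold UU; rw [Multiset.map_add, Multiset.prod_add]

lemma VV_add (R S : Multiset ℂ) : VV (R + S) = VV R * VV S := by
  unfold VV; rw [Multiset.map_add, Multiset.prod_add]

lemma UU_mul_VV (R : Multiset ℂ) : UU R * VV R = (R.map (fun a => ‖a‖)).prod := by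
  unfold UU VV
  induction R using Multiset.induction_on with
  | empty => simp
  | cons a s ih =>
    rw [Multiset.map_cons, Multiset.prod_cons, Multiset.map_cons, Multiset.prod_cons,
      Multiset.map_cons, Multiset.prod_cons, ← ih]
    have h : max 1 ‖a‖ * min 1 ‖a‖ = ‖a‖ := by
      rcases le_total 1 ‖a‖ with h | h
      · rw [max_eq_right h, min_eq_left h, mul_one]
      · rw [max_eq_left h, min_eq_right h, one_mul]
    calc _ = (max 1 ‖a‖ * min 1 ‖a‖) * ((s.map fun a => max 1 ‖a‖).prod *
          (s.map fun a => min 1 ‖a‖).prod) := by ring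
      _ = _ := by rw [h]

lemma coe_PP (R : Multiset ℂ) : ((PP R : ℂ[X]) : PowerSeries ℂ) = (R.map uB).prod := by
  unfold PP
  induction R using Multiset.induction_on with
  | empty => simp
  | cons a m ih =>
    rw [Multiset.map_cons, Multiset.prod_cons, Multiset.map_cons, Multiset.prod_cons,
      Polynomial.coe_mul, ih]
    congr 1
    rw [uB]
    simp

lemma coe_QQ (R : Multiset ℂ) : ((QQ R : ℂ[X]) : PowerSeries ℂ) = (R.map uA).prod := by
  unfold QQ
  induction R using Multiset.induction_on with
  | empty => simp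
  | cons a m ih =>
    rw [Multiset.map_cons, Multiset.prod_cons, Multiset.map_cons, Multiset.prod_cons,
      Polynomial.coe_mul, ih]
    congr 1
    rw [uA]
    simp

lemma norm_PP_zero (R : Multiset ℂ) : ‖(PP R).coeff 0‖ = (R.map (fun a => ‖a‖)).prod := by
  unfold PP
  induction R using Multiset.induction_on with
  | empty => simp
  | cons a m ih =>
    rw [Multiset.map_cons, Multiset.prod_cons, Multiset.map_cons, Multiset.prod_cons,
      Polynomial.mul_coeff_zero, norm_mul, ih]
    simp

lemma QQ_zero (R : Multiset ℂ) : (QQ R).coeff 0 = 1 := by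
  unfold QQ
  induction R using Multiset.induction_on with
  | empty => simp
  | cons a m ih =>
    rw [Multiset.map_cons, Multiset.prod_cons, Polynomial.mul_coeff_zero, ih]
    simp

/-- the numerical inequality -/
lemma numeric {x y w : ℝ} (hx : 0 ≤ x) (hx1 : x ≤ 1) (hy : 1 ≤ y)
    (h : w * (1 / y) ≤ (1 - x ^ 2) + (y * x) * (1 - (1 / y) ^ 2)) : w ≤ y ^ 2 - x ^ 2 := by
  have hy0 : 0 < y := by linarith
  have h1 : w ≤ y * ((1 - x ^ 2) + (y * x) * (1 - (1 / y) ^ 2)) := by
    have := mul_le_mul_of_nonneg_left h hy0.le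
    calc w = y * (w * (1 / y)) := by field_simp
      _ ≤ _ := this
  have h2 : y * ((1 - x ^ 2) + (y * x) * (1 - (1 / y) ^ 2)) =
      y - y * x ^ 2 + y ^ 2 * x - x := by
    field_simp
    ring
  rw [h2] at h1
  have h3 : 0 ≤ (1 - x) * ((y - 1) * (y - x)) := by
    apply mul_nonneg (by linarith)
    apply mul_nonneg (by linarith) (by linarith)
  nlinarith

/-- **The local bound.** If the coefficients of `P - P(0) P^*` below `J` vanish, then the `J`-th
coefficient is at most `∏ max(1,|a|)² - ∏ min(1,|a|)²`. -/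
lemma local_bound (R : Multiset ℂ) (hR : ∀ a ∈ R, a ≠ 0) (J : ℕ) (hJ : 0 < J)
    (hlow : ∀ i < J, (PP R - C ((PP R).coeff 0) * QQ R).coeff i = 0) :
    ‖(PP R - C ((PP R).coeff 0) * QQ R).coeff J‖ ≤ UU R ^ 2 - VV R ^ 2 := by
  classical
  set A : ℂ := (PP R).coeff 0 with hA
  set w : ℂ[X] := PP R - C A * QQ R with hw
  set s := R.filter (fun a => ‖a‖ ≤ 1) with hs
  set t := R.filter (fun a => ¬ ‖a‖ ≤ 1) with ht
  have hst : s + t = R := Multiset.filter_add_not _ _
  obtain ⟨F, hF1, hF2⟩ := exists_inner s (fun a ha => (Multiset.mem_filter.1 ha).2)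
  obtain ⟨H, hH1, hH2⟩ := exists_inner' t (fun a ha => not_le.1 (Multiset.mem_filter.1 ha).2)
  have hid : F * ((QQ R : ℂ[X]) : PowerSeries ℂ) = H * ((PP R : ℂ[X]) : PowerSeries ℂ) := by
    rw [coe_QQ, coe_PP, ← hst, Multiset.map_add, Multiset.prod_add, Multiset.map_add,
      Multiset.prod_add, ← mul_assoc, hF1, ← hH1]
    ring
  obtain ⟨w', hw'⟩ : X ^ J ∣ w := by
    rw [Polynomial.X_pow_dvd_iff]
    exact hlow
  have hw'0 : w'.coeff 0 = w.coeff J := by
    rw [hw', mul_comm, Polynomial.coeff_mul_X_pow']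
    simp
  set rv : PowerSeries ℂ := ((QQ R : ℂ[X]) : PowerSeries ℂ) with hrv
  have hfw : ((PP R : ℂ[X]) : PowerSeries ℂ) =
      PowerSeries.C A * rv + PowerSeries.X ^ J * ((w' : ℂ[X]) : PowerSeries ℂ) := by
    have h1 : PP R = C A * QQ R + X ^ J * w' := by rw [← hw', hw]; ring
    have h2 := congrArg (fun q : ℂ[X] => (q : PowerSeries ℂ)) h1
    simp only [Polynomial.coe_mul, Polynomial.coe_C, Polynomial.coe_add,
      Polynomial.coe_pow, Polynomial.coe_X] at h2
    exact h2
  have hrv0 : PowerSeries.constantCoeff rv = 1 := by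
    rw [hrv, Polynomial.constantCoeff_coe, QQ_zero]
  have hrvunit : rv * rv⁻¹ = 1 := PowerSeries.mul_inv_cancel _ (by rw [hrv0]; exact one_ne_zero)
  have hΔ : F - H * PowerSeries.C A = PowerSeries.X ^ J *
      (H * ((w' : ℂ[X]) : PowerSeries ℂ) * rv⁻¹) := by
    have h1 : (F - H * PowerSeries.C A) * rv = PowerSeries.X ^ J *
        (H * ((w' : ℂ[X]) : PowerSeries ℂ)) := by
      rw [sub_mul, hid, hfw]
      ring
    calc F - H * PowerSeries.C A = (F - H * PowerSeries.C A) * (rv * rv⁻¹) := by
          rw [hrvunit, mul_one]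
      _ = ((F - H * PowerSeries.C A) * rv) * rv⁻¹ := by ring
      _ = _ := by rw [h1]; ring
  have hck : PowerSeries.coeff J F - PowerSeries.coeff J H * A =
      PowerSeries.coeff 0 H * w.coeff J := by
    have h1 := congrArg (PowerSeries.coeff J) hΔ
    rw [map_sub, PowerSeries.coeff_mul_C, PowerSeries.coeff_X_pow_mul'] at h1
    rw [h1, if_pos le_rfl, Nat.sub_self]
    have h2 : PowerSeries.constantCoeff (rv⁻¹) = 1 := by
      rw [PowerSeries.constantCoeff_inv, hrv0, inv_one]
    rw [PowerSeries.coeff_zero_eq_constantCoeff_apply, map_mul, map_mul, h2, mul_one,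
      Polynomial.constantCoeff_coe, hw'0,
      PowerSeries.coeff_zero_eq_constantCoeff_apply]
  have hc0 : PowerSeries.coeff 0 F = PowerSeries.coeff 0 H * A := by
    have h1 := congrArg (PowerSeries.coeff 0) hΔ
    rw [map_sub, PowerSeries.coeff_mul_C, PowerSeries.coeff_X_pow_mul', if_neg (by omega)] at h1
    exact sub_eq_zero.1 h1
  -- the value of the constant coefficients
  have h2 : ∀ m : Multiset ℂ, ‖PowerSeries.constantCoeff (m.map uB).prod‖ =
      (m.map (fun a => ‖a‖)).prod := by
    intro m
    induction m using Multiset.induction_on with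
    | empty => simp
    | cons a m ih =>
      rw [Multiset.map_cons, Multiset.prod_cons, map_mul, norm_mul, ih, Multiset.map_cons,
        Multiset.prod_cons]
      congr 1
      simp [uB]
  have h3 : ∀ m : Multiset ℂ, ‖PowerSeries.constantCoeff (m.map uA).prod‖ = 1 := by
    intro m
    induction m using Multiset.induction_on with
    | empty => simp
    | cons a m ih =>
      rw [Multiset.map_cons, Multiset.prod_cons, map_mul, norm_mul, ih]
      simp [uA]
  have hUt : UU R = (t.map (fun a => ‖a‖)).prod := by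
    have h5 : UU s = 1 := by
      apply Multiset.prod_eq_one
      intro x hx
      obtain ⟨a, ha, rfl⟩ := Multiset.mem_map.1 hx
      exact max_eq_left (Multiset.mem_filter.1 ha).2
    have h6 : UU t = (t.map (fun a => ‖a‖)).prod := by
      unfold UU
      congr 1
      apply Multiset.map_congr rfl
      intro a ha
      exact max_eq_right (not_le.1 (Multiset.mem_filter.1 ha).2).le
    rw [← hst, UU_add, h5, h6, one_mul]
  have hVs : VV R = (s.map (fun a => ‖a‖)).prod := by
    have h5 : VV t = 1 := by
      apply Multiset.prod_eq_one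
      intro x hx
      obtain ⟨a, ha, rfl⟩ := Multiset.mem_map.1 hx
      exact min_eq_left (not_le.1 (Multiset.mem_filter.1 ha).2).le
    have h6 : VV s = (s.map (fun a => ‖a‖)).prod := by
      unfold VV
      congr 1
      apply Multiset.map_congr rfl
      intro a ha
      exact min_eq_right (Multiset.mem_filter.1 ha).2
    rw [← hst, VV_add, h5, h6, mul_one]
  have hH0 : ‖PowerSeries.coeff 0 H‖ * UU R = 1 := by
    have h1 := congrArg (fun v => ‖PowerSeries.constantCoeff v‖) hH1
    simp only [map_mul, norm_mul] at h1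
    rw [h2, h3] at h1
    rw [hUt, PowerSeries.coeff_zero_eq_constantCoeff_apply]
    exact h1
  have hF0 : ‖PowerSeries.coeff 0 F‖ = VV R := by
    have h1 := congrArg (fun v => ‖PowerSeries.constantCoeff v‖) hF1
    simp only [map_mul, norm_mul] at h1
    rw [h2, h3, mul_one] at h1
    rw [hVs, PowerSeries.coeff_zero_eq_constantCoeff_apply]
    exact h1
  have hU1 := UU_ge R
  have hU0 : 0 < UU R := by linarith
  have hV0 := VV_pos R hR
  have hV1 := VV_le R
  have he0 : ‖PowerSeries.coeff 0 H‖ = 1 / UU R := by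
    field_simp
    exact hH0
  have hHne : PowerSeries.coeff 0 H ≠ 0 := by
    intro h
    rw [h, norm_zero, zero_mul] at hH0
    exact zero_ne_one hH0
  have hFne : PowerSeries.coeff 0 F ≠ 0 := by
    intro h
    rw [h, norm_zero] at hF0
    exact hV0.ne hF0
  have hAn : ‖A‖ = UU R * VV R := by
    rw [UU_mul_VV, hA, norm_PP_zero]
  have b1 := coeff_bound F hF2 J hJ hFne
  have b2 := coeff_bound H hH2 J hJ hHne
  rw [hF0] at b1
  rw [he0] at b2
  apply numeric hV0.le hV1 hU1
  have b3 : ‖w.coeff J‖ * (1 / UU R) = ‖PowerSeries.coeff J F - PowerSeries.coeff J H * A‖ := by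
    rw [hck, norm_mul, he0, mul_comm]
  rw [b3]
  refine (norm_sub_le _ _).trans ?_
  rw [norm_mul, hAn]
  have b4 : ‖PowerSeries.coeff J H‖ * (UU R * VV R) ≤ (1 - (1 / UU R) ^ 2) * (UU R * VV R) :=
    mul_le_mul_of_nonneg_right b2 (by positivity)
  linarith

end Pool.Agent.X115.Dec
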