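import Mathlib
import Pool.Agent.H338R2.Smyth2
import Pool.Agent.H334R2.Integral
import Pool.Agent.X115.Dec.Local

/-!
# Integrality of products of coefficients of the factors of an integer polynomial
-/

set_option autoImplicit false

open Polynomial

namespace Pool.Agent.X115.Dec

/-- the additive group generated by the products of the sub-multisets -/
def IS (R : Multiset ℂ) : AddSubgroup ℂ := AddSubgroup.closure {x | ∃ S ≤ R, x = S.prod}

lemma one_mem_IS (R : Multiset ℂ) : (1 : ℂ) ∈ IS R :=
  AddSubgroup.subset_closure ⟨0, Multiset.zero_le _, by simp⟩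

lemma IS_mono {R R' : Multiset ℂ} (h : R ≤ R') : IS R ≤ IS R' := by
  apply AddSubgroup.closure_mono
  rintro x ⟨S, hS, rfl⟩
  exact ⟨S, hS.trans h, rfl⟩

lemma mul_mem_IS {R R' : Multiset ℂ} {x y : ℂ} (hx : x ∈ IS R) (hy : y ∈ IS R') :
    x * y ∈ IS (R + R') := by
  unfold IS at hx
  induction hx using AddSubgroup.closure_induction with
  | mem x hx =>
    obtain ⟨S, hS, rfl⟩ := hx
    unfold IS at hy
    induction hy using AddSubgroup.closure_induction with
    | mem y hy =>
      obtain ⟨T, hT, rfl⟩ := hy
      exact AddSubgroup.subset_closure ⟨S + T, add_le_add hS hT, by rw [Multiset.prod_add]⟩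
    | zero => rw [mul_zero]; exact zero_mem _
    | add a b _ _ h1 h2 => rw [mul_add]; exact add_mem h1 h2
    | neg a _ h => rw [mul_neg]; exact neg_mem h
  | zero => rw [zero_mul]; exact zero_mem _
  | add a b _ _ h1 h2 => rw [add_mul]; exact add_mem h1 h2
  | neg a _ h => rw [neg_mul]; exact neg_mem h

lemma PP_add (R S : Multiset ℂ) : PP (R + S) = PP R * PP S := by
  unfold PP; rw [Multiset.map_add, Multiset.prod_add]

lemma PP_cons (a : ℂ) (S : Multiset ℂ) : PP (a ::ₘ S) = (X - C a) * PP S := by
  unfold PP; rw [Multiset.map_cons, Multiset.prod_cons]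

lemma coeff_PP_mem (R : Multiset ℂ) : ∀ i, (PP R).coeff i ∈ IS R := by
  induction R using Multiset.induction_on with
  | empty =>
    intro i
    have : PP 0 = 1 := by simp [PP]
    rw [this, coeff_one]
    split_ifs
    · exact one_mem_IS _
    · exact zero_mem _
  | cons a s ih =>
    intro i
    rw [PP_cons, sub_mul, coeff_sub, coeff_C_mul]
    apply sub_mem
    · rcases i with _ | i
      · simp
      · rw [coeff_X_mul]
        exact IS_mono (Multiset.le_cons_self _ _) (ih i)
    · have h1 : a ∈ IS {a} := AddSubgroup.subset_closure ⟨{a}, le_rfl, by simp⟩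
      have h2 := mul_mem_IS h1 (ih i)
      rwa [Multiset.singleton_add] at h2

/-- dividing by linear factors -/
lemma integral_sub {c : ℂ} {S : Multiset ℂ} (T : Multiset ℂ)
    (h : ∀ i, IsIntegral ℤ ((C c * PP (T + S)).coeff i)) : ∀ i, IsIntegral ℤ ((C c * PP S).coeff i) := by
  induction T using Multiset.induction_on with
  | empty => simpa using h
  | cons a T ih =>
    apply ih
    have heq : C c * PP (a ::ₘ T + S) = (X - C a) * (C c * PP (T + S)) := by
      rw [Multiset.cons_add, PP_cons]; ring
    rw [heq] at h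
    exact Pool.Agent.H334R2.coeff_isIntegral_of_linear_mul a _ _ le_rfl h

lemma PP_coeff_zero (S : Multiset ℂ) : (PP S).coeff 0 = (-1) ^ (Multiset.card S) * S.prod := by
  unfold PP
  induction S using Multiset.induction_on with
  | empty => simp
  | cons a s ih =>
    rw [Multiset.map_cons, Multiset.prod_cons, mul_coeff_zero, ih, Multiset.card_cons,
      Multiset.prod_cons]
    simp
    ring

/-- the coefficients of the factors -/
lemma integral_mem {c : ℂ} {R : Multiset ℂ} (h : ∀ i, IsIntegral ℤ ((C c * PP R).coeff i))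
    {x : ℂ} (hx : x ∈ IS R) : IsIntegral ℤ (c * x) := by
  unfold IS at hx
  induction hx using AddSubgroup.closure_induction with
  | mem x hx =>
    obtain ⟨S, hS, rfl⟩ := hx
    obtain ⟨T, rfl⟩ := Multiset.le_iff_exists_add.1 hS
    rw [add_comm] at h
    have h1 := integral_sub T h 0
    rw [coeff_C_mul, PP_coeff_zero] at h1
    have h2 : c * S.prod = (-1) ^ (Multiset.card S) * (c * ((-1) ^ (Multiset.card S) * S.prod)) := by
      have : ((-1 : ℂ) ^ (Multiset.card S)) * (-1) ^ (Multiset.card S) = 1 := by
        rw [← mul_pow]; simp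
      calc c * S.prod = (((-1 : ℂ) ^ (Multiset.card S)) * (-1) ^ (Multiset.card S)) * (c * S.prod) := by
            rw [this, one_mul]
        _ = _ := by ring
    rw [h2]
    exact ((isIntegral_one.neg).pow _).mul h1
  | zero => rw [mul_zero]; exact isIntegral_zero
  | add a b _ _ h1 h2 => rw [mul_add]; exact h1.add h2
  | neg a _ h => rw [mul_neg]; exact h.neg

/-- products of elements, one from each factor -/
lemma prod_mem_IS (B : Multiset ℂ) (w : ℂ → ℂ) (R : ℂ → Multiset ℂ) (h : ∀ b ∈ B, w b ∈ IS (R b)) :
    (B.map w).prod ∈ IS ((B.map R).sum) := by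
  induction B using Multiset.induction_on with
  | empty => simpa using one_mem_IS 0
  | cons b B ih =>
    simp only [Multiset.map_cons, Multiset.prod_cons, Multiset.sum_cons]
    exact mul_mem_IS (h b (Multiset.mem_cons_self _ _))
      (ih fun c hc => h c (Multiset.mem_cons_of_mem hc))

lemma PP_sum (B : Multiset ℂ) (R : ℂ → Multiset ℂ) :
    PP ((B.map R).sum) = (B.map fun b => PP (R b)).prod := by
  induction B using Multiset.induction_on with
  | empty => simp [PP]
  | cons b B ih =>
    rw [Multiset.map_cons, Multiset.sum_cons, PP_add, ih, Multiset.map_cons, Multiset.prod_cons]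

lemma UU_sum (B : Multiset ℂ) (R : ℂ → Multiset ℂ) :
    UU ((B.map R).sum) = (B.map fun b => UU (R b)).prod := by
  induction B using Multiset.induction_on with
  | empty => simp [UU]
  | cons b B ih =>
    rw [Multiset.map_cons, Multiset.sum_cons, UU_add, ih, Multiset.map_cons, Multiset.prod_cons]

lemma VV_sum (B : Multiset ℂ) (R : ℂ → Multiset ℂ) :
    VV ((B.map R).sum) = (B.map fun b => VV (R b)).prod := by
  induction B using Multiset.induction_on with
  | empty => simp [VV]
  | cons b B ih =>
    rw [Multiset.map_cons, Multiset.sum_cons, VV_add, ih, Multiset.map_cons, Multiset.prod_cons]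

lemma PP_monic (R : Multiset ℂ) : (PP R).Monic := monic_multiset_prod_of_monic _ _ fun a _ => monic_X_sub_C a

lemma PP_natDegree (R : Multiset ℂ) : (PP R).natDegree = Multiset.card R := by
  unfold PP
  exact natDegree_multiset_prod_X_sub_C_eq_card R

/-- the conjugate reciprocal -/
lemma QQ_eq (R : Multiset ℂ) : QQ R = ((PP R).map (starRingEnd ℂ)).reverse := by
  unfold QQ PP
  rw [Polynomial.map_multiset_prod, Multiset.map_map]
  have h1 : (R.map (Polynomial.map (starRingEnd ℂ) ∘ fun a => X - C a)) =
      (R.map (starRingEnd ℂ)).map (fun a => X - C a) := by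
    rw [Multiset.map_map]
    apply Multiset.map_congr rfl
    intro a _
    simp
  rw [h1, Pool.Agent.H338R2.reverse_prod, Multiset.map_map]
  congr 1

lemma QQ_coeff (R : Multiset ℂ) {i : ℕ} (hi : i ≤ Multiset.card R) :
    (QQ R).coeff i = starRingEnd ℂ ((PP R).coeff (Multiset.card R - i)) := by
  rw [QQ_eq, coeff_reverse, natDegree_map, PP_natDegree, revAt_le hi, coeff_map]

lemma mahler_PP (R : Multiset ℂ) : (PP R).mahlerMeasure = UU R := by
  unfold PP UU
  rw [prod_mahlerMeasure_eq_mahlerMeasure_prod, Multiset.map_map]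
  congr 1
  apply Multiset.map_congr rfl
  intro a _
  simp [mahlerMeasure_X_sub_C]

end Pool.Agent.X115.Dec
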