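import Mathlib
import Pool.Agent.X115.Dec.Int

/-!
# The Mahler measure of decomposable polynomials
-/

set_option autoImplicit false

open Polynomial

namespace Pool.Agent.X115.Dec

/-- the weight `1 / φ` -/
noncomputable def pw : ℝ := Real.goldenRatio⁻¹

/-- the weight `1 / φ ^ 2` -/
noncomputable def qw : ℝ := 1 - Real.goldenRatio⁻¹

lemma pw_pos : 0 < pw := inv_pos.2 Real.goldenRatio_pos

lemma qw_eq : qw = (Real.goldenRatio ^ 2)⁻¹ := by
  have h1 := Real.goldenRatio_pos
  have h2 := Real.goldenRatio_sq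
  apply eq_inv_of_mul_eq_one_left
  have h3 : Real.goldenRatio⁻¹ * Real.goldenRatio = 1 := inv_mul_cancel₀ h1.ne'
  have h4 : qw * Real.goldenRatio ^ 2 =
      Real.goldenRatio ^ 2 - (Real.goldenRatio⁻¹ * Real.goldenRatio) * Real.goldenRatio := by
    unfold qw; ring
  rw [h4, h3, h2]
  ring

lemma qw_pos : 0 < qw := by
  rw [qw_eq]
  have h1 := Real.goldenRatio_pos
  positivity

/-- the inequality for one factor -/
lemma one_factor {w U V : ℝ} (hw : 0 < w) (hU : 0 < U) (hV : 0 < V) (h : w ≤ U ^ 2 - V ^ 2) :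
    pw * Real.log w + 2 * qw * Real.log V + (1 + qw) * Real.log Real.goldenRatio ≤
      2 * Real.log U := by
  have hp := pw_pos
  have hq := qw_pos
  have hφ := Real.goldenRatio_pos
  have hpq : pw + qw = 1 := by unfold pw qw; ring
  have h1 := Real.geom_mean_le_arith_mean2_weighted hp.le hq.le
    (show 0 ≤ w / pw by positivity) (show 0 ≤ V ^ 2 / qw by positivity) hpq
  have h2 : pw * (w / pw) + qw * (V ^ 2 / qw) = w + V ^ 2 := by field_simp
  rw [h2] at h1
  have h3 : (w / pw) ^ pw * (V ^ 2 / qw) ^ qw ≤ U ^ 2 := by linarith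
  have h4 := Real.log_le_log (by positivity) h3
  rw [Real.log_mul (by positivity) (by positivity), Real.log_rpow (by positivity),
    Real.log_rpow (by positivity), Real.log_div hw.ne' hp.ne',
    Real.log_div (by positivity) hq.ne', Real.log_pow, Real.log_pow] at h4
  have h5 : Real.log pw = - Real.log Real.goldenRatio := by
    unfold pw; rw [Real.log_inv]
  have h6 : Real.log qw = - (2 * Real.log Real.goldenRatio) := by
    rw [qw_eq, Real.log_inv, Real.log_pow]; norm_num
  rw [h5, h6] at h4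
  have h7 : pw = 1 - qw := by linarith
  push_cast at h4
  rw [h7] at h4 ⊢
  nlinarith

/-- the inequality for all factors -/
lemma all_factors (B : Multiset ℂ) (w U V : ℂ → ℝ) (c d e K : ℝ) (hw : ∀ b ∈ B, 0 < w b)
    (hU : ∀ b ∈ B, 0 < U b) (hV : ∀ b ∈ B, 0 < V b)
    (h : ∀ b ∈ B, c * Real.log (w b) + d * Real.log (V b) + K ≤ e * Real.log (U b)) :
    c * Real.log ((B.map w).prod) + d * Real.log ((B.map V).prod) + Multiset.card B * K ≤
        e * Real.log ((B.map U).prod) ∧
      0 < (B.map w).prod ∧ 0 < (B.map U).prod ∧ 0 < (B.map V).prod := by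
  induction B using Multiset.induction_on with
  | empty => simp
  | cons b B ih =>
    obtain ⟨i1, i2, i3, i4⟩ := ih (fun b hb => hw b (Multiset.mem_cons_of_mem hb))
      (fun b hb => hU b (Multiset.mem_cons_of_mem hb))
      (fun b hb => hV b (Multiset.mem_cons_of_mem hb))
      (fun b hb => h b (Multiset.mem_cons_of_mem hb))
    have w1 := hw b (Multiset.mem_cons_self _ _)
    have u1 := hU b (Multiset.mem_cons_self _ _)
    have v1 := hV b (Multiset.mem_cons_self _ _)
    have k1 := h b (Multiset.mem_cons_self _ _)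
    simp only [Multiset.map_cons, Multiset.prod_cons, Multiset.card_cons]
    refine ⟨?_, by positivity, by positivity, by positivity⟩
    rw [Real.log_mul w1.ne' i2.ne', Real.log_mul v1.ne' i4.ne', Real.log_mul u1.ne' i3.ne']
    push_cast
    nlinarith

lemma norm_prod_map (B : Multiset ℂ) (w : ℂ → ℂ) : ‖(B.map w).prod‖ = (B.map fun b => ‖w b‖).prod := by
  induction B using Multiset.induction_on with
  | empty => simp
  | cons b B ih => simp only [Multiset.map_cons, Multiset.prod_cons, norm_mul, ih]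

/-- a nonzero rational number that is an algebraic integer -/
lemma one_le_of_integral {r : ℚ} (hr : r ≠ 0) (h : IsIntegral ℤ (r : ℂ)) : 1 ≤ ‖(r : ℂ)‖ := by
  have h1 : IsIntegral ℤ r := by
    have h2 : (r : ℂ) = algebraMap ℚ ℂ r := by simp
    rw [h2] at h
    exact (isIntegral_algebraMap_iff (algebraMap ℚ ℂ).injective).mp h
  obtain ⟨n, hn⟩ := IsIntegrallyClosed.isIntegral_iff.mp h1
  have hn' : (n : ℚ) = r := by simpa using hn
  have hn0 : n ≠ 0 := by rintro rfl; apply hr; rw [← hn']; simp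
  rw [← hn']
  have : (((n : ℚ)) : ℂ) = (n : ℂ) := by push_cast; rfl
  rw [this, Complex.norm_intCast]
  exact_mod_cast Int.one_le_abs hn0

theorem main_monic (f : ℤ[X]) (g h : ℚ[X]) (hfg : f.map (Int.castRingHom ℚ) = g.comp h)
    (hm : h.Monic) (h0 : h.coeff 0 = 0) (hg : ∀ r : ℚ, g.eval r ≠ 0)
    (hi : ∃ i, 0 < i ∧ i < h.natDegree ∧ h.coeff i ≠ 0) :
    g.natDegree * ((1 + qw) * Real.log Real.goldenRatio) +
        2 * qw * (Real.log |(f.leadingCoeff : ℝ)| + Real.log |(f.coeff 0 : ℝ)|) ≤
      2 * (1 + qw) * Real.log (f.map (Int.castRingHom ℂ)).mahlerMeasure := by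
  classical
  set k := h.natDegree with hk
  have hex : ∃ i, 0 < i ∧ (h.coeff i ≠ 0 ∨ h.coeff (k - i) ≠ 0) := by
    obtain ⟨i, hi1, -, hi3⟩ := hi
    exact ⟨i, hi1, Or.inl hi3⟩
  set J := Nat.find hex with hJdef
  obtain ⟨hJ0, hJ⟩ := Nat.find_spec hex
  rw [← hJdef] at hJ0 hJ
  have hJmin : ∀ i, 0 < i → i < J → h.coeff i = 0 ∧ h.coeff (k - i) = 0 := by
    intro i h1 h2
    have h3 := Nat.find_min hex h2
    push Not at h3
    exact h3 h1
  have hJk : J < k := by
    obtain ⟨i, hi1, hi2, hi3⟩ := hi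
    exact (Nat.find_min' hex ⟨hi1, Or.inl hi3⟩).trans_lt hi2
  set u : ℚ := h.coeff J with hu
  set v : ℚ := h.coeff (k - J) with hv
  set gc : ℂ[X] := g.map (algebraMap ℚ ℂ) with hgc
  set hc : ℂ[X] := h.map (algebraMap ℚ ℂ) with hhc
  have hcm : hc.Monic := hm.map _
  have hcdeg : hc.natDegree = k := by rw [hhc, natDegree_map]
  have hccoeff : ∀ i, hc.coeff i = ((h.coeff i : ℚ) : ℂ) := by
    intro i; rw [hhc, coeff_map]; simp
  set B : Multiset ℂ := gc.roots with hB
  set R : ℂ → Multiset ℂ := fun b => (hc - C b).roots with hR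
  have hkpos : 0 < k := by omega
  have hPm : ∀ b, (hc - C b).Monic := by
    intro b
    apply hcm.sub_of_left
    rw [degree_eq_natDegree hcm.ne_zero, hcdeg]
    exact (degree_C_le).trans_lt (by exact_mod_cast hkpos)
  have hPd : ∀ b, (hc - C b).natDegree = k := by
    intro b
    rw [natDegree_sub_C, hcdeg]
  have hP : ∀ b, PP (R b) = hc - C b := by
    intro b
    exact ((IsAlgClosed.splits (hc - C b)).eq_prod_roots_of_monic (hPm b)).symm
  have hcard : ∀ b, Multiset.card (R b) = k := by
    intro b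
    rw [← PP_natDegree, hP, hPd]
  have hPcoeff : ∀ b i, 0 < i → (PP (R b)).coeff i = ((h.coeff i : ℚ) : ℂ) := by
    intro b i hi
    rw [hP, coeff_sub, hccoeff, coeff_C, if_neg hi.ne', sub_zero]
  have hP0 : ∀ b, (PP (R b)).coeff 0 = - b := by
    intro b
    rw [hP, coeff_sub, hccoeff, h0, coeff_C_zero]
    simp
  -- the factorisation of `f`
  have hfc : f.map (Int.castRingHom ℂ) = gc.comp hc := by
    rw [hgc, hhc, ← Polynomial.map_comp, ← hfg, Polynomial.map_map]
    congr 1
  set a : ℂ := gc.leadingCoeff with ha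
  have hg0 : g ≠ 0 := by
    rintro rfl
    exact hg 0 (by simp)
  have haq : a = ((g.leadingCoeff : ℚ) : ℂ) := by
    rw [ha, hgc, leadingCoeff_map]; simp
  have ha0 : a ≠ 0 := by
    rw [haq]
    exact_mod_cast leadingCoeff_ne_zero.2 hg0
  have hgfac : gc = C a * (B.map fun b => X - C b).prod := (IsAlgClosed.splits gc).eq_prod_roots
  have hcardB : Multiset.card B = g.natDegree := by
    rw [hB, ← (IsAlgClosed.splits gc).natDegree_eq_card_roots, hgc, natDegree_map]
  set T : Multiset ℂ := (B.map R).sum with hT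
  have hffac : f.map (Int.castRingHom ℂ) = C a * PP T := by
    rw [hfc, hT, PP_sum]
    conv_lhs => rw [hgfac]
    rw [mul_comp, C_comp, multiset_prod_comp, Multiset.map_map]
    congr 2
    apply Multiset.map_congr rfl
    intro b _
    simp [hP]
  have hMf : (f.map (Int.castRingHom ℂ)).mahlerMeasure = ‖a‖ * UU T := by
    rw [hffac, mahlerMeasure_mul, mahlerMeasure_const, mahler_PP]
  have hf0 : ((f.coeff 0 : ℤ) : ℂ) = a * (PP T).coeff 0 := by
    have h1 := congrArg (fun q : ℂ[X] => q.coeff 0) hffac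
    simp only [coeff_map, coeff_C_mul] at h1
    simpa using h1
  have hf0n : |(f.coeff 0 : ℝ)| = ‖a‖ * (UU T * VV T) := by
    have h1 := congrArg norm hf0
    rw [Complex.norm_intCast, norm_mul, norm_PP_zero, ← UU_mul_VV] at h1
    exact h1
  have hlc : |(f.leadingCoeff : ℝ)| = ‖a‖ := by
    have h1 : (f.map (Int.castRingHom ℂ)).leadingCoeff = a := by
      rw [hffac, leadingCoeff_mul, leadingCoeff_C, (PP_monic T).leadingCoeff, mul_one]
    rw [leadingCoeff_map_of_injective (RingHom.injective_int _), eq_intCast] at h1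
    rw [← h1, Complex.norm_intCast]
  -- the roots of `g` are not zero
  have hb0 : ∀ b ∈ B, b ≠ 0 := by
    rintro b hb rfl
    have h1 := (mem_roots'.1 hb).2
    rw [IsRoot.def, hgc, eval_map_algebraMap] at h1
    apply hg 0
    have h2 : aeval (0 : ℂ) g = ((g.eval 0 : ℚ) : ℂ) := by
      have := aeval_algebraMap_apply ℂ (0 : ℚ) g
      simpa using this
    rw [h2] at h1
    exact_mod_cast h1
  have hRne : ∀ b ∈ B, ∀ x ∈ R b, x ≠ 0 := by
    rintro b hb x hx rfl
    have h1 := (mem_roots'.1 hx).2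
    rw [IsRoot.def, ← coeff_zero_eq_eval_zero, ← hP, hP0] at h1
    exact hb0 b hb (neg_eq_zero.1 h1)
  -- the deviations
  set w : ℂ → ℂ := fun b => (u : ℂ) + b * (v : ℂ) with hw
  have hdev : ∀ b, ∀ i, 0 < i → i < k →
      (PP (R b) - C ((PP (R b)).coeff 0) * QQ (R b)).coeff i =
        ((h.coeff i : ℚ) : ℂ) + b * ((h.coeff (k - i) : ℚ) : ℂ) := by
    intro b i hi1 hi2
    rw [coeff_sub, coeff_C_mul, hPcoeff b i hi1, hP0, QQ_coeff (R b) (by rw [hcard]; omega), hcard,
      hPcoeff b (k - i) (by omega)]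
    have : (starRingEnd ℂ) ((h.coeff (k - i) : ℚ) : ℂ) = ((h.coeff (k - i) : ℚ) : ℂ) := by simp
    rw [this]
    ring
  have hloc : ∀ b ∈ B, ‖w b‖ ≤ UU (R b) ^ 2 - VV (R b) ^ 2 := by
    intro b hb
    have h1 := local_bound (R b) (hRne b hb) J hJ0 (by
      intro i hi
      rcases Nat.eq_zero_or_pos i with rfl | hi0
      · rw [coeff_sub, coeff_C_mul, QQ_zero, mul_one, sub_self]
      · rw [hdev b i hi0 (by omega), (hJmin i hi0 hi).1, (hJmin i hi0 hi).2]
        simp)
    rw [hdev b J hJ0 hJk] at h1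
    exact h1
  -- the product is rational and not zero
  obtain ⟨r, hr0, hr⟩ : ∃ r : ℚ, r ≠ 0 ∧ a * (B.map w).prod = (r : ℂ) := by
    by_cases hv0 : v = 0
    · have hu0 : u ≠ 0 := by
        rcases hJ with h1 | h1
        · exact h1
        · exact absurd hv0 h1
      refine ⟨g.leadingCoeff * u ^ g.natDegree,
        mul_ne_zero (leadingCoeff_ne_zero.2 hg0) (pow_ne_zero _ hu0), ?_⟩
      have h1 : B.map w = B.map fun _ => (u : ℂ) := by
        apply Multiset.map_congr rfl
        intro b _
        rw [hw]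
        simp [hv0]
      rw [h1, Multiset.map_const', Multiset.prod_replicate, hcardB, haq]
      push_cast
      rfl
    · refine ⟨(-v) ^ g.natDegree * g.eval (-u / v), mul_ne_zero (pow_ne_zero _ (neg_ne_zero.2 hv0))
        (hg _), ?_⟩
      have hvc : (v : ℂ) ≠ 0 := by exact_mod_cast hv0
      have h1 : gc.eval ((-u / v : ℚ) : ℂ) = ((g.eval (-u / v) : ℚ) : ℂ) := by
        have := aeval_algebraMap_apply ℂ (-u / v : ℚ) g
        rw [hgc, eval_map_algebraMap]
        simpa using this
      have h2 : gc.eval ((-u / v : ℚ) : ℂ) = a * (B.map fun b => ((-u / v : ℚ) : ℂ) - b).prod := by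
        conv_lhs => rw [hgfac]
        rw [eval_mul, eval_C, eval_multiset_prod, Multiset.map_map]
        congr 2
        apply Multiset.map_congr rfl
        intro b _
        simp
      have h3 : (B.map w).prod = (-(v : ℂ)) ^ g.natDegree *
          (B.map fun b => ((-u / v : ℚ) : ℂ) - b).prod := by
        have h4 : (-(v : ℂ)) ^ g.natDegree = (B.map fun _ => (-(v : ℂ))).prod := by
          rw [Multiset.map_const', Multiset.prod_replicate, hcardB]
        rw [h4, ← Multiset.prod_map_mul]
        congr 1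
        apply Multiset.map_congr rfl
        intro b _
        rw [hw]
        push_cast
        field_simp
        ring
      rw [h3]
      push_cast
      rw [← h1, h2]
      push_cast
      ring
  have hWint : IsIntegral ℤ (a ^ 2 * (B.map w).prod) := by
    have hcoef : ∀ i, IsIntegral ℤ ((C (a ^ 2) * PP ((B.map fun b => R b + R b).sum)).coeff i) := by
      intro i
      have h1 : C (a ^ 2) * PP ((B.map fun b => R b + R b).sum) =
          (f * f).map (Int.castRingHom ℂ) := by
        rw [Polynomial.map_mul, hffac, hT, PP_sum, PP_sum]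
        have h2 : (B.map fun b => PP (R b + R b)).prod =
            (B.map fun b => PP (R b)).prod * (B.map fun b => PP (R b)).prod := by
          rw [← Multiset.prod_map_mul]
          congr 1
          apply Multiset.map_congr rfl
          intro b _
          exact PP_add _ _
        rw [h2, C_pow]
        ring
      rw [h1, coeff_map]
      exact isIntegral_algebraMap (R := ℤ) (A := ℂ) (x := (f * f).coeff i)
    apply integral_mem hcoef
    apply prod_mem_IS
    intro b _
    apply add_mem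
    · have h1 : (u : ℂ) ∈ IS (R b) := by
        rw [← hPcoeff b J hJ0]; exact coeff_PP_mem _ _
      have h2 := mul_mem_IS h1 (one_mem_IS (R b))
      rwa [mul_one] at h2
    · have h1 : (v : ℂ) ∈ IS (R b) := by
        rw [← hPcoeff b (k - J) (by omega)]; exact coeff_PP_mem _ _
      have h2 : b ∈ IS (R b) := by
        have h3 := neg_mem (coeff_PP_mem (R b) 0)
        rwa [hP0, neg_neg] at h3
      exact mul_mem_IS h2 h1
  have hW1 : 1 ≤ ‖a‖ ^ 2 * ‖(B.map w).prod‖ := by
    have h1 : a ^ 2 * (B.map w).prod = ((g.leadingCoeff * r : ℚ) : ℂ) := by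
      rw [pow_two, mul_assoc, hr, haq]
      push_cast
      rfl
    have h2 := one_le_of_integral (mul_ne_zero (leadingCoeff_ne_zero.2 hg0) hr0)
      (by rw [← h1]; exact hWint)
    rw [← h1, norm_mul, norm_pow] at h2
    exact h2
  have hwpos : ∀ b ∈ B, 0 < ‖w b‖ := by
    intro b hb
    rw [norm_pos_iff]
    intro h1
    have h2 : (B.map w).prod = 0 := Multiset.prod_eq_zero (Multiset.mem_map.2 ⟨b, hb, h1⟩)
    rw [h2, mul_zero] at hr
    exact hr0 (by exact_mod_cast hr.symm)
  obtain ⟨k1, k2, k3, k4⟩ := all_factors B (fun b => ‖w b‖) (fun b => UU (R b)) (fun b => VV (R b))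
    pw (2 * qw) 2 ((1 + qw) * Real.log Real.goldenRatio) hwpos
    (fun b _ => lt_of_lt_of_le one_pos (UU_ge _)) (fun b hb => VV_pos _ (hRne b hb))
    (fun b hb => one_factor (hwpos b hb) (lt_of_lt_of_le one_pos (UU_ge _))
      (VV_pos _ (hRne b hb)) (hloc b hb))
  rw [← norm_prod_map] at k1 k2
  rw [← VV_sum, ← UU_sum, hcardB] at k1
  rw [← UU_sum] at k3
  rw [← VV_sum] at k4
  have han : 0 < ‖a‖ := norm_pos_iff.2 ha0
  have e1 : 0 ≤ 2 * Real.log ‖a‖ + Real.log ‖(B.map w).prod‖ := by
    have h1 := Real.log_nonneg hW1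
    rw [Real.log_mul (by positivity) k2.ne', Real.log_pow] at h1
    exact_mod_cast h1
  have e2 : Real.log (f.map (Int.castRingHom ℂ)).mahlerMeasure = Real.log ‖a‖ + Real.log (UU T) := by
    rw [hMf, Real.log_mul han.ne' k3.ne']
  have e3 : Real.log |(f.coeff 0 : ℝ)| = Real.log ‖a‖ + (Real.log (UU T) + Real.log (VV T)) := by
    rw [hf0n, Real.log_mul han.ne' (mul_pos k3 k4).ne', Real.log_mul k3.ne' k4.ne']
  rw [e2, e3, hlc]
  have hp := pw_pos
  have hpq : pw = 1 - qw := by unfold pw qw; ring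
  have e4 : 0 ≤ pw * (2 * Real.log ‖a‖ + Real.log ‖(B.map w).prod‖) := mul_nonneg hp.le e1
  rw [hpq] at e4 k1
  nlinarith

end Pool.Agent.X115.Dec
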