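import Mathlib
import Pool.Agent.X115.Dec.Main

/-!
# Decomposable polynomials: final forms
-/

set_option autoImplicit false

open Polynomial

namespace Pool.Agent.X115.Dec

/-! ### Mahler measure of `f(X^p)` (from the starting file `Y947/DL/Poly`) -/

lemma card_grid {p : ℕ} (hp : 0 < p) : (nthRootsFinset p (1:ℂ)).card = p :=
  (Complex.isPrimitiveRoot_exp p hp.ne').card_nthRootsFinset

lemma norm_grid {p : ℕ} (hp : 0 < p) {ζ : ℂ} (h : ζ ∈ nthRootsFinset p (1:ℂ)) : ‖ζ‖ = 1 := by
  rw [mem_nthRootsFinset hp] at h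
  have h1 : ‖ζ‖ ^ p = 1 := by rw [← norm_pow, h, norm_one]
  exact (pow_eq_one_iff_of_nonneg (norm_nonneg _) hp.ne').1 h1

lemma X_pow_sub_C_eq {p : ℕ} (hp : 0 < p) (c : ℂ) :
    (X : ℂ[X]) ^ p - C (c ^ p) = ∏ ζ ∈ nthRootsFinset p (1:ℂ), (X - C (ζ * c)) := by
  have hprim := Complex.isPrimitiveRoot_exp p hp.ne'
  apply Polynomial.funext
  intro x
  rw [eval_prod]
  simp only [eval_sub, eval_X, eval_C, eval_pow]
  exact hprim.pow_sub_pow_eq_prod_sub_mul x c hp

lemma mahler_X_pow_sub_C {p : ℕ} (hp : 0 < p) (a : ℂ) :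
    ((X : ℂ[X]) ^ p - C a).mahlerMeasure = (X - C a).mahlerMeasure := by
  obtain ⟨c, hc⟩ := IsAlgClosed.exists_pow_nat_eq a hp
  rw [mahlerMeasure_X_sub_C, ← hc, X_pow_sub_C_eq hp, Finset.prod_eq_multiset_prod,
    prod_mahlerMeasure_eq_mahlerMeasure_prod, Multiset.map_map]
  have h1 : (Multiset.map (mahlerMeasure ∘ fun ζ => X - C (ζ * c)) (nthRootsFinset p (1:ℂ)).val).prod
      = ∏ ζ ∈ nthRootsFinset p (1:ℂ), max 1 ‖c‖ := by
    rw [Finset.prod_eq_multiset_prod]
    congr 1
    refine Multiset.map_congr rfl fun ζ hζ => ?_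
    rw [Function.comp_apply, mahlerMeasure_X_sub_C, norm_mul, norm_grid hp hζ, one_mul]
  rw [h1, Finset.prod_const, card_grid hp, norm_pow]
  rcases le_total ‖c‖ 1 with h | h
  · rw [max_eq_left h, max_eq_left (pow_le_one₀ (norm_nonneg _) h), one_pow]
  · rw [max_eq_right h, max_eq_right (one_le_pow₀ h)]

lemma mahler_expand {p : ℕ} (hp : 0 < p) (G : ℂ[X]) :
    (expand ℂ p G).mahlerMeasure = G.mahlerMeasure := by
  have h1 := (IsAlgClosed.splits G).eq_prod_roots
  rw [h1, map_mul, expand_C, mahlerMeasure_mul, mahlerMeasure_mul, map_multiset_prod,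
    prod_mahlerMeasure_eq_mahlerMeasure_prod, prod_mahlerMeasure_eq_mahlerMeasure_prod,
    Multiset.map_map, Multiset.map_map, Multiset.map_map]
  congr 2
  refine Multiset.map_congr rfl fun a _ => ?_
  simp only [Function.comp_apply, map_sub, expand_X, expand_C]
  exact mahler_X_pow_sub_C hp a

/-- the Mahler measure of an integer polynomial -/
noncomputable def M (f : ℤ[X]) : ℝ := (f.map (Int.castRingHom ℂ)).mahlerMeasure

lemma M_expand {p : ℕ} (hp : 0 < p) (g : ℤ[X]) : M (expand ℤ p g) = M g := by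
  rw [M, M, Polynomial.map_expand, mahler_expand hp]

lemma M_mul (f g : ℤ[X]) : M (f * g) = M f * M g := by
  rw [M, Polynomial.map_mul, mahlerMeasure_mul]; rfl

lemma M_pow (f : ℤ[X]) (n : ℕ) : M (f ^ n) = M f ^ n := by
  induction n with
  | zero => rw [pow_zero, pow_zero, M, Polynomial.map_one]; simp
  | succ n ih => rw [pow_succ, M_mul, ih, pow_succ]

lemma M_pos {f : ℤ[X]} (hf : f ≠ 0) : 0 < M f :=
  mahlerMeasure_pos_of_ne_zero ((Polynomial.map_ne_zero_iff (RingHom.injective_int _)).mpr hf)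

lemma q_ratio : qw / (1 + qw) = (5 - Real.sqrt 5) / 10 := by
  have h5 : Real.sqrt 5 ^ 2 = 5 := Real.sq_sqrt (by norm_num)
  have h50 : 0 < Real.sqrt 5 := Real.sqrt_pos.2 (by norm_num)
  have hq : qw = (3 - Real.sqrt 5) / 2 := by
    unfold qw
    rw [Real.inv_goldenRatio, Real.goldenConj]
    ring
  rw [hq, div_eq_div_iff (by nlinarith) (by norm_num)]
  nlinarith

/-- the main inequality for arbitrary decompositions, logarithmic form -/
theorem main_log (f : ℤ[X]) (g h : ℚ[X]) (hfg : f.map (Int.castRingHom ℚ) = g.comp h)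
    (hg : ∀ r : ℚ, g.eval r ≠ 0) (hi : ∃ i, 0 < i ∧ i < h.natDegree ∧ h.coeff i ≠ 0) :
    g.natDegree * ((1 + qw) * Real.log Real.goldenRatio) +
        2 * qw * (Real.log |(f.leadingCoeff : ℝ)| + Real.log |(f.coeff 0 : ℝ)|) ≤
      2 * (1 + qw) * Real.log (M f) := by
  have hh0 : h ≠ 0 := by
    rintro rfl
    obtain ⟨i, h1, h2, h3⟩ := hi
    exact h3 (by simp)
  set c : ℚ := h.leadingCoeff with hc
  have hc0 : c ≠ 0 := leadingCoeff_ne_zero.2 hh0
  set e : ℚ := h.coeff 0 with he
  set h1 : ℚ[X] := C c⁻¹ * (h - C e) with hh1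
  set g1 : ℚ[X] := g.comp (C c * X + C e) with hg1
  have hkpos : 0 < h.natDegree := by
    obtain ⟨i, h1, h2, h3⟩ := hi
    omega
  have e1 : C c * h1 + C e = h := by
    rw [hh1, ← mul_assoc, ← C_mul, mul_inv_cancel₀ hc0, C_1, one_mul, sub_add_cancel]
  have e2 : g1.comp h1 = g.comp h := by
    rw [hg1, comp_assoc]
    congr 1
    simp only [add_comp, mul_comp, C_comp, X_comp]
    exact e1
  have e3 : h1.natDegree = h.natDegree := by
    rw [hh1, natDegree_C_mul (inv_ne_zero hc0), natDegree_sub_C]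
  have e4 : h1.Monic := by
    have hl : (h - C e).leadingCoeff = c := by
      rw [leadingCoeff, natDegree_sub_C, coeff_sub, coeff_C, if_neg hkpos.ne', sub_zero]
      rfl
    rw [Monic, hh1, leadingCoeff_mul, leadingCoeff_C, hl, inv_mul_cancel₀ hc0]
  have e5 : h1.coeff 0 = 0 := by
    rw [hh1, coeff_C_mul, coeff_sub, coeff_C_zero, ← he, sub_self, mul_zero]
  have e6 : g1.natDegree = g.natDegree := by
    rw [hg1, natDegree_comp]
    have : (C c * X + C e : ℚ[X]).natDegree = 1 := natDegree_linear hc0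
    rw [this, mul_one]
  have e7 : ∀ r : ℚ, g1.eval r ≠ 0 := by
    intro r
    rw [hg1, eval_comp]
    exact hg _
  have e8 : ∃ i, 0 < i ∧ i < h1.natDegree ∧ h1.coeff i ≠ 0 := by
    obtain ⟨i, i1, i2, i3⟩ := hi
    refine ⟨i, i1, by rw [e3]; exact i2, ?_⟩
    rw [hh1, coeff_C_mul, coeff_sub, coeff_C, if_neg i1.ne', sub_zero]
    exact mul_ne_zero (inv_ne_zero hc0) i3
  have := main_monic f g1 h1 (by rw [e2]; exact hfg) e4 e5 e7 e8
  rw [e6] at this
  exact this

lemma coeff_zero_ne {f : ℤ[X]} {g h : ℚ[X]} (hfg : f.map (Int.castRingHom ℚ) = g.comp h)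
    (hg : ∀ r : ℚ, g.eval r ≠ 0) : f.coeff 0 ≠ 0 := by
  intro h0
  apply hg (h.eval 0)
  have h1 := congrArg (fun q : ℚ[X] => q.coeff 0) hfg
  simp only [coeff_map, h0] at h1
  rw [← eval_comp, ← coeff_zero_eq_eval_zero, ← h1]
  simp

/-- **The Mahler measure of decomposable polynomials.** -/
theorem main (f : ℤ[X]) (g h : ℚ[X]) (hfg : f.map (Int.castRingHom ℚ) = g.comp h)
    (hg : ∀ r : ℚ, g.eval r ≠ 0) (hi : ∃ i, 0 < i ∧ i < h.natDegree ∧ h.coeff i ≠ 0) :
    Real.goldenRatio ^ ((g.natDegree : ℝ) / 2) *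
        |(f.leadingCoeff : ℝ) * (f.coeff 0 : ℝ)| ^ ((5 - Real.sqrt 5) / 10) ≤ M f := by
  have h0 := coeff_zero_ne hfg hg
  have hf : f ≠ 0 := by rintro rfl; simp at h0
  have hlc : f.leadingCoeff ≠ 0 := leadingCoeff_ne_zero.2 hf
  have a1 : 0 < |(f.leadingCoeff : ℝ)| := abs_pos.2 (by exact_mod_cast hlc)
  have a2 : 0 < |(f.coeff 0 : ℝ)| := abs_pos.2 (by exact_mod_cast h0)
  have hM := M_pos hf
  have hφ := Real.goldenRatio_pos
  have h1 := main_log f g h hfg hg hi
  have hq := qw_pos
  rw [← Real.log_le_log_iff (by positivity) hM, Real.log_mul (by positivity) (by positivity),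
    Real.log_rpow hφ, Real.log_rpow (by positivity), abs_mul, Real.log_mul a1.ne' a2.ne',
    ← q_ratio]
  set A := Real.log |(f.leadingCoeff : ℝ)| + Real.log |(f.coeff 0 : ℝ)|
  have h2 : (g.natDegree : ℝ) / 2 * Real.log Real.goldenRatio + qw / (1 + qw) * A =
      (g.natDegree * ((1 + qw) * Real.log Real.goldenRatio) + 2 * qw * A) / (2 * (1 + qw)) := by
    field_simp
  rw [h2, div_le_iff₀ (by positivity)]
  linarith

lemma one_le_abs_mul {f : ℤ[X]} (h0 : f.coeff 0 ≠ 0) :
    1 ≤ |(f.leadingCoeff : ℝ) * (f.coeff 0 : ℝ)| := by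
  have hf : f ≠ 0 := by rintro rfl; simp at h0
  have hlc : f.leadingCoeff ≠ 0 := leadingCoeff_ne_zero.2 hf
  have := Int.one_le_abs (mul_ne_zero hlc h0)
  exact_mod_cast this

theorem main' (f : ℤ[X]) (g h : ℚ[X]) (hfg : f.map (Int.castRingHom ℚ) = g.comp h)
    (hg : ∀ r : ℚ, g.eval r ≠ 0) (hi : ∃ i, 0 < i ∧ i < h.natDegree ∧ h.coeff i ≠ 0) :
    Real.goldenRatio ^ ((g.natDegree : ℝ) / 2) ≤ M f := by
  have h1 := main f g h hfg hg hi
  have h5 : Real.sqrt 5 ≤ 5 := by
    rw [Real.sqrt_le_left (by norm_num)]; norm_num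
  have h2 : 1 ≤ |(f.leadingCoeff : ℝ) * (f.coeff 0 : ℝ)| ^ ((5 - Real.sqrt 5) / 10) :=
    Real.one_le_rpow (one_le_abs_mul (coeff_zero_ne hfg hg)) (by linarith)
  have h3 : 0 < Real.goldenRatio ^ ((g.natDegree : ℝ) / 2) :=
    Real.rpow_pos_of_pos Real.goldenRatio_pos _
  nlinarith

/-- an irreducible decomposable polynomial: the outer polynomial has no rational zero -/
lemma no_root {f : ℤ[X]} (hf : Irreducible f) {g h : ℚ[X]}
    (hfg : f.map (Int.castRingHom ℚ) = g.comp h) (hgd : 2 ≤ g.natDegree) (hhd : 1 ≤ h.natDegree) :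
    ∀ r : ℚ, g.eval r ≠ 0 := by
  intro r hr
  have hdeg : f.natDegree = g.natDegree * h.natDegree := by
    rw [← natDegree_comp, ← hfg, natDegree_map_eq_of_injective (RingHom.injective_int _)]
  have hfd : f.natDegree ≠ 0 := by
    rw [hdeg]; positivity
  have hprim : f.IsPrimitive := hf.isPrimitive hfd
  have hirr : Irreducible (f.map (Int.castRingHom ℚ)) :=
    (IsPrimitive.Int.irreducible_iff_irreducible_map_cast hprim).1 hf
  obtain ⟨g1, hg1⟩ := dvd_iff_isRoot.2 (show g.IsRoot r from hr)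
  have h1 : f.map (Int.castRingHom ℚ) = (h - C r) * g1.comp h := by
    rw [hfg, hg1, mul_comp]
    simp
  have hg10 : g1 ≠ 0 := by
    rintro rfl
    rw [mul_zero] at hg1
    rw [hg1] at hgd
    simp at hgd
  have hg1d : g.natDegree = 1 + g1.natDegree := by
    rw [hg1, natDegree_mul (X_sub_C_ne_zero r) hg10, natDegree_X_sub_C]
  rcases hirr.isUnit_or_isUnit h1 with h2 | h2
  · have h3 := natDegree_eq_zero_of_isUnit h2
    rw [natDegree_sub_C] at h3
    omega
  · have h3 := natDegree_eq_zero_of_isUnit h2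
    rw [natDegree_comp] at h3
    have : 0 < g1.natDegree * h.natDegree := Nat.mul_pos (by omega) (by omega)
    omega

/-- not a composition over the rational numbers of two polynomials of degree at least two -/
def Indec (F : ℤ[X]) : Prop :=
  ∀ g h : ℚ[X], F.map (Int.castRingHom ℚ) = g.comp h → g.natDegree ≤ 1 ∨ h.natDegree ≤ 1

/-- a composition with a binomial is a polynomial in a power of the variable -/
lemma binomial_case {f : ℤ[X]} {g h : ℚ[X]} (hfg : f.map (Int.castRingHom ℚ) = g.comp h)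
    (hhd : 2 ≤ h.natDegree) (hno : ∀ i, 0 < i → i < h.natDegree → h.coeff i = 0) :
    ∃ F : ℤ[X], f = expand ℤ h.natDegree F := by
  set l := h.natDegree with hl
  have hlpos : 0 < l := by omega
  -- `h = c X ^ l + e`
  have hh : h = expand ℚ l (C h.leadingCoeff * X + C (h.coeff 0)) := by
    ext i
    rw [coeff_expand hlpos]
    by_cases hdvd : l ∣ i
    · rw [if_pos hdvd]
      obtain ⟨j, rfl⟩ := hdvd
      rw [Nat.mul_div_cancel_left _ hlpos]
      rcases j with _ | _ | j
      · simp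
      · simp [leadingCoeff, ← hl]
      · rw [coeff_eq_zero_of_natDegree_lt (by rw [← hl]; nlinarith)]
        simp
    · rw [if_neg hdvd]
      rcases Nat.lt_or_ge i l with h1 | h1
      · apply hno i _ h1
        rcases Nat.eq_zero_or_pos i with rfl | h2
        · exact absurd (dvd_zero l) hdvd
        · exact h2
      · apply coeff_eq_zero_of_natDegree_lt
        rw [← hl]
        rcases h1.eq_or_lt with h2 | h2
        · rw [← h2] at hdvd; exact absurd dvd_rfl hdvd
        · exact h2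
  have hG : f.map (Int.castRingHom ℚ) = expand ℚ l (g.comp (C h.leadingCoeff * X + C (h.coeff 0))) := by
    rw [hfg, expand_eq_comp_X_pow, comp_assoc]
    conv_lhs => rw [hh]
    rw [expand_eq_comp_X_pow]
  refine ⟨contract l f, ?_⟩
  ext i
  rw [coeff_expand hlpos]
  split_ifs with hdvd
  · rw [coeff_contract hlpos.ne', Nat.div_mul_cancel hdvd]
  · have h1 := congrArg (fun q : ℚ[X] => q.coeff i) hG
    simp only [coeff_map, coeff_expand hlpos, if_neg hdvd] at h1
    simpa using h1

/-- **Structure of the irreducible polynomials with small measure.** -/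
theorem structure_thm : ∀ n : ℕ, ∀ f : ℤ[X], f.natDegree = n → Irreducible f →
    M f < Real.goldenRatio → ∃ (k : ℕ) (F : ℤ[X]), 0 < k ∧ f = expand ℤ k F ∧ Irreducible F ∧
      M F = M f ∧ Indec F := by
  intro n
  induction n using Nat.strong_induction_on with
  | _ n ih =>
    intro f hfn hf hM
    by_cases hind : Indec f
    · exact ⟨1, f, one_pos, (expand_one f).symm, hf, rfl, hind⟩
    · unfold Indec at hind
      push Not at hind
      obtain ⟨g, h, hfg, hgd, hhd⟩ := hind
      have hgd' : 2 ≤ g.natDegree := hgd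
      have hhd' : 2 ≤ h.natDegree := hhd
      have hno : ∀ i, 0 < i → i < h.natDegree → h.coeff i = 0 := by
        by_contra hcon
        push Not at hcon
        obtain ⟨i, i1, i2, i3⟩ := hcon
        have h1 := main' f g h hfg (no_root hf hfg hgd' (by omega)) ⟨i, i1, i2, i3⟩
        have h2 : Real.goldenRatio ≤ Real.goldenRatio ^ ((g.natDegree : ℝ) / 2) := by
          have h3 : (1 : ℝ) ≤ (g.natDegree : ℝ) / 2 := by
            rw [le_div_iff₀ two_pos]; exact_mod_cast hgd'
          calc Real.goldenRatio = Real.goldenRatio ^ (1 : ℝ) := (Real.rpow_one _).symm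
            _ ≤ _ := Real.rpow_le_rpow_of_exponent_le Real.one_lt_goldenRatio.le h3
        linarith
      obtain ⟨F, hF⟩ := binomial_case hfg hhd' hno
      set l := h.natDegree with hl
      have hlpos : 0 < l := by omega
      have hFirr : Irreducible F := of_irreducible_expand hlpos.ne' (by rw [← hF]; exact hf)
      have hFM : M F = M f := by rw [hF, M_expand hlpos]
      have hdeg : f.natDegree = F.natDegree * l := by rw [hF, natDegree_expand]
      have hdeg2 : f.natDegree = g.natDegree * h.natDegree := by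
        rw [← natDegree_comp, ← hfg, natDegree_map_eq_of_injective (RingHom.injective_int _)]
      have hFpos : 0 < F.natDegree := by
        rcases Nat.eq_zero_or_pos F.natDegree with h1 | h1
        · rw [h1, zero_mul] at hdeg
          rw [hdeg] at hdeg2
          have : 0 < g.natDegree * h.natDegree := Nat.mul_pos (by omega) (by omega)
          omega
        · exact h1
      have hlt : F.natDegree < n := by
        rw [← hfn, hdeg]
        nlinarith
      obtain ⟨k, G, hk, hG, hGirr, hGM, hGind⟩ := ih F.natDegree hlt F rfl hFirr (by rw [hFM]; exact hM)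
      refine ⟨l * k, G, Nat.mul_pos hlpos hk, ?_, hGirr, by rw [hGM, hFM], hGind⟩
      rw [expand_mul, ← hG, hF]

end Pool.Agent.X115.Dec
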